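import Mathlib
import Pool.Agent.Y909.Mk

set_option autoImplicit false

namespace Pool.Agent.Results.MP_c86b5e_nt.SmallPrimes

open Pool.Agent.Y909.Mk

/-- the group generated by the coordinate permutations and the Vieta involution acting on triples -/
def group (p : ℕ) : Subgroup (Equiv.Perm (ZMod p × ZMod p × ZMod p)) :=
  Subgroup.closure
    {⟨fun x => (x.2.1, x.1, x.2.2), fun x => (x.2.1, x.1, x.2.2), fun _ => rfl, fun _ => rfl⟩,
     ⟨fun x => (x.1, x.2.2, x.2.1), fun x => (x.1, x.2.2, x.2.1), fun _ => rfl, fun _ => rfl⟩,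
     ⟨fun x => (x.1, x.2.1, x.1 * x.2.1 - x.2.2), fun x => (x.1, x.2.1, x.1 * x.2.1 - x.2.2),
      fun x => by simp, fun x => by simp⟩}

/-- the triples of level `k` -/
def levelSet (p : ℕ) (k : ZMod p) : Set (ZMod p × ZMod p × ZMod p) :=
  {x | x.1 ^ 2 + x.2.1 ^ 2 + x.2.2 ^ 2 - x.1 * x.2.1 * x.2.2 - 2 = k}

/-- the base points of the exceptional orbits -/
def base (p : ℕ) : Set (ZMod p × ZMod p × ZMod p) :=
  {b | (∃ t : ZMod p, b = (t, 0, 0)) ∨ b = (1, 1, 0) ∨ (∃ r : ZMod p, r ^ 2 = 2 ∧ b = (r, 1, 0)) ∨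
    (∃ φ : ZMod p, φ ^ 2 = φ + 1 ∧ (b = (φ, 1 - φ, 0) ∨ b = (φ, 1, 0)))}

/-- the union of the exceptional orbits contained in level `k` -/
def exceptional (p : ℕ) (k : ZMod p) : Set (ZMod p × ZMod p × ZMod p) :=
  {x | x ∈ levelSet p k ∧ ∃ b ∈ base p, x ∈ MulAction.orbit (group p) b}

theorem group_eq (p : ℕ) : group p = Gam p := rfl

theorem empty_of {p : ℕ} {k : ZMod p} (h : ∀ x : T p, level x = k → x ∈ Exc p) :
    levelSet p k \ exceptional p k = ∅ := by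
  ext x
  simp only [Set.mem_sdiff, Set.mem_empty_iff_false, iff_false, not_and, not_not]
  intro hx
  obtain ⟨b, hb, hxb⟩ := h x hx
  exact ⟨hx, b, hb, hxb⟩

theorem result :
    (levelSet 3 0 \ exceptional 3 0 = ∅ ∧ levelSet 5 0 \ exceptional 5 0 = ∅ ∧
      levelSet 7 0 \ exceptional 7 0 = ∅ ∧ levelSet 7 1 \ exceptional 7 1 = ∅ ∧
      levelSet 11 1 \ exceptional 11 1 = ∅) ∧
    ¬ (∀ p : ℕ, p.Prime → p ≠ 2 → ∀ k : ZMod p, k ≠ 2 → k ≠ -2 →
      ∃ c : ZMod p × ZMod p × ZMod p,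
        levelSet p k \ exceptional p k = MulAction.orbit (group p) c) := by
  refine ⟨⟨empty_of c3, empty_of c5, empty_of c7, empty_of c7', empty_of c11⟩, fun h => ?_⟩
  obtain ⟨c, hc⟩ := h 11 (by norm_num) (by norm_num) 1 (by decide) (by decide)
  rw [empty_of c11] at hc
  have : c ∈ (∅ : Set (ZMod 11 × ZMod 11 × ZMod 11)) := hc ▸ MulAction.mem_orbit_self c
  exact this

end Pool.Agent.Results.MP_c86b5e_nt.SmallPrimes
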